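import Pool.Agent.E8helper3.CH.Bm

/-!
# Finite generation of étale motivic cohomology in the weight of the dimension, and the higher Chow groups
# of one smooth affine cubic hypersurface

`RationalBM k` lists the properties which are used of rational motivic Borel-Moore homology
`H_j(X, ℚ(w)) = CH_w(X, j - 2 w) ⊗ ℚ` (Bloch's higher Chow groups) of separated schemes `X` of finite type over a
finite field `k`: localization, homotopy invariance, the pull-back along rational points of smooth schemes, and
`CH_w(k, q) ⊗ ℚ = 0` for `(w, q) ≠ (0, 0)` (Quillen).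

Let `X` be a scheme over `k` such that some affine bundle over `X` has an affine total space (`InJ`; all
quasi-projective schemes by Jouanolou). We construct, for all large `m`, polynomials `gₗ` of degree at most two
such that for the smooth affine cubic hypersurface `H : ∑ yₗ gₗ(x) = 1`

`H_{j+1+2N+2r}(H, ℚ(w+N+r)) = H_j(X, ℚ(w)) ⊕ H_{j+1-2m}(k, ℚ(w-m))` for all `j` and `w`.

If `X` is smooth and proper over `k`, connected and of dimension `d` then `H_{2d-i}(X, ℚ(0)) = H^i(X, ℚ(d))`,
and the known relation (`IsWeightDim`) with the groups `G i = H^i(X_et, ℤ(d))` is that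
`H^i(X_et, ℤ(d)) → H^i(X, ℚ(d))` has finite kernel and cokernel for `i < 2 d`, and that `H^{2d}(X_et, ℤ(d))` is
finitely generated. So the question has a positive answer for `X`, that is `H^i(X_et, ℤ(d))` is finitely generated
for all `i ≤ 2 d`, if and only if `CH^m(H, q) ⊗ ℚ = 0` for all `q ≥ 2`. (`H` is smooth of dimension
`D = m + N + r`, and `CH^m(H, q) ⊗ ℚ = H_{2D-2m+q}(H, ℚ(N+r))`.)
-/

set_option autoImplicit false

open CategoryTheory CategoryTheory.Limits AlgebraicGeometry MvPolynomial
open Pool.Agent.R904.CU Pool.Agent.Y116.UV Pool.Agent.E8helper3.CH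

namespace Pool.Agent.Results.MP_b197b4_nt.CubicHigherChowH3

/-- Rational motivic Borel-Moore homology `H j w X = H_j(X, ℚ(w)) = CH_w(X, j - 2 w) ⊗ ℚ` of the schemes over a
finite field `k`. -/
structure RationalBM (k : Type) [Field k] extends BorelMoore k (ModuleCat.{0} ℚ) where
  /-- the rational higher Chow groups of a finite field (Quillen) -/
  point : ∀ j w : ℤ, (j, w) ≠ (0, 0) → Subsingleton (H j w (aff k k))

/-- The known relation between `G i = H^i(X_et, ℤ(d))` and `W i = H^i(X, ℚ(d))` for `X` smooth, proper and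
connected of dimension `d` over a finite field. -/
structure IsWeightDim (d : ℤ) (G : ℤ → Type) [∀ i, AddCommGroup (G i)] (W : ℤ → Type)
    [∀ i, AddCommGroup (W i)] : Prop where
  /-- finite kernel and cokernel below the degree `2 d` -/
  low : ∀ i : ℤ, i < 2 * d → ∃ φ : G i →+ W i, Finite φ.ker ∧ Finite (W i ⧸ φ.range)
  /-- the group in the degree `2 d` -/
  top : AddGroup.FG (G (2 * d))

/-- the groups in the degrees `≤ 2 d` are finitely generated -/
def FinitelyGenerated (d : ℤ) (G : ℤ → Type) [∀ i, AddCommGroup (G i)] : Prop :=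
  ∀ i : ℤ, i ≤ 2 * d → AddGroup.FG (G i)

/-- The group `CH^c(H, q) ⊗ ℚ = H_{2D-2c+q}(H, ℚ(D-c))` of a smooth scheme `H` of dimension `D`. -/
noncomputable def CH {k : Type} [Field k] (T : RationalBM k) (D : ℤ) (H : Sch k) (c q : ℤ) :
    ModuleCat.{0} ℚ := T.H (2 * D - 2 * c + q) (D - c) H

/-- A finitely generated rational vector space is zero. (Proof by helper65.) -/
theorem subsingleton_of_fg (W : Type) [AddCommGroup W] [Module ℚ W] (h : AddGroup.FG W) :
    Subsingleton W := by
  have h1 : Module.Finite ℤ W := Module.Finite.iff_addGroup_fg.2 h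
  have h2 : (⊤ : Submodule ℤ W) ≤ (Ideal.span {(2 : ℤ)}) • (⊤ : Submodule ℤ W) := by
    intro w _
    have h3 : w = (2 : ℤ) • ((2 : ℚ)⁻¹ • w) := by
      rw [← Int.cast_smul_eq_zsmul ℚ, smul_smul]
      norm_num
    rw [h3]
    exact Submodule.smul_mem_smul (Ideal.subset_span (Set.mem_singleton _)) Submodule.mem_top
  obtain ⟨r, hr, hr2⟩ := Submodule.exists_sub_one_mem_and_smul_eq_zero_of_fg_of_le_smul
    (Ideal.span {(2 : ℤ)}) (⊤ : Submodule ℤ W) h1.fg_top h2
  have hr0 : r ≠ 0 := by
    rintro rfl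
    rw [Ideal.mem_span_singleton] at hr
    omega
  have h4 : ∀ w : W, w = 0 := by
    intro w
    have h5 := hr2 w Submodule.mem_top
    rw [← Int.cast_smul_eq_zsmul ℚ] at h5
    exact (smul_eq_zero.1 h5).resolve_left (by exact_mod_cast hr0)
  exact ⟨fun a b => by rw [h4 a, h4 b]⟩

theorem fg_iff {d : ℤ} {G : ℤ → Type} [∀ i, AddCommGroup (G i)] {W : ℤ → ModuleCat.{0} ℚ}
    (h : IsWeightDim d G fun i => W i) :
    FinitelyGenerated d G ↔ ∀ i : ℤ, i < 2 * d → Subsingleton (W i) := by
  constructor
  · intro h1 i hi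
    obtain ⟨φ, -, h3⟩ := h.low i hi
    have h4 : AddGroup.FG (G i) := h1 i hi.le
    apply subsingleton_of_fg
    have h5 : AddGroup.FG φ.range := by
      have := AddGroup.fg_range φ
      exact this
    have h6 : Module.Finite ℤ φ.range.toIntSubmodule := Module.Finite.iff_addGroup_fg.2 h5
    have h7 : Module.Finite ℤ (W i ⧸ φ.range.toIntSubmodule) := by
      have : Finite (W i ⧸ φ.range.toIntSubmodule) := h3
      exact Module.Finite.of_finite
    have h8 : Module.Finite ℤ (W i) := Module.Finite.of_submodule_quotient φ.range.toIntSubmodule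
    exact Module.Finite.iff_addGroup_fg.1 h8
  · intro h1 i hi
    rcases lt_or_eq_of_le hi with h2 | rfl
    · obtain ⟨φ, h3, -⟩ := h.low i h2
      have h4 := h1 i h2
      have h5 : Finite (G i) := by
        refine Finite.of_injective (fun x => (⟨x, Subsingleton.elim _ _⟩ : φ.ker)) ?_
        intro x y hxy
        exact congrArg Subtype.val hxy
      exact AddGroup.fg_of_finite
    · exact h.top

theorem subsingleton_iso {A B : ModuleCat.{0} ℚ} (e : A ≅ B) : Subsingleton A ↔ Subsingleton B :=
  e.toLinearEquiv.toEquiv.subsingleton_congr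

theorem subsingleton_biprod (A B : ModuleCat.{0} ℚ) (hB : Subsingleton B) :
    Subsingleton (A ⊞ B : ModuleCat.{0} ℚ) ↔ Subsingleton A := by
  rw [(ModuleCat.biprodIsoProd A B).toLinearEquiv.toEquiv.subsingleton_congr]
  constructor
  · intro h
    exact ⟨fun a b => congrArg Prod.fst (h.elim (a, (0 : B)) (b, (0 : B)))⟩
  · intro h
    exact ⟨fun a b => Prod.ext (h.elim _ _) (hB.elim _ _)⟩

/-- Let `X` be a separated scheme of finite type over a finite field `k` with an affine bundle whose total
space is affine. There are constants `N`, `m₀` such that for all `m > m₀` there are polynomials `gₗ` of degree at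
most two over `k` in `m + N` variables such that the cubic hypersurface `H : ∑ yₗ gₗ(x) = 1`, of dimension
`D = m + N + r`, is smooth and satisfies
`H_{j+1+2N+2r}(H, ℚ(w+N+r)) = H_j(X, ℚ(w)) ⊕ H_{j+1-2m}(k, ℚ(w-m))` for all `j`, `w`. If `X` is smooth, proper
and connected of dimension `d`, then the groups `G i = H^i(X_et, ℤ(d))` are finitely generated for all `i ≤ 2 d`
if and only if `CH^m(H, q) ⊗ ℚ = 0` for all `q ≥ 2`. -/
theorem result (k : Type) [Field k] [Finite k] (X : Sch k) (hX : InJ True X) :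
    ∃ N m₀ : ℕ, ∀ m : ℕ, m₀ < m → ∃ (r : ℕ) (g : Fin (r + 1) → MvPolynomial (Fin (m + N)) k),
      (∀ l, (g l).totalDegree ≤ 2) ∧ Smooth (cub g).hom ∧
      ∀ T : RationalBM k,
        (∀ j w : ℤ, Nonempty (T.H (j + 1 + 2 * N + 2 * r) (w + N + r) (cub g) ≅
          T.H j w X ⊞ T.H (j + 1 - 2 * m) (w - m) (aff k k))) ∧
        ∀ (d : ℤ) (G : ℤ → Type) [∀ i, AddCommGroup (G i)],
          IsWeightDim d G (fun i => T.H (2 * d - i) 0 X) →
          (FinitelyGenerated d G ↔ ∀ q : ℤ, 2 ≤ q → Subsingleton (CH T (m + N + r) (cub g) m q)) := by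
  obtain ⟨N, m₀, h⟩ := bm_formula k X hX
  refine ⟨N, m₀, fun m hm => ?_⟩
  obtain ⟨r, g, hg, hT⟩ := h m hm.le
  refine ⟨r, g, hg, smooth_cub g, fun T => ⟨fun j w => hT _ T.toBorelMoore j w,
    fun d G _ hG => ?_⟩⟩
  rw [fg_iff (W := fun i => T.H (2 * d - i) 0 X) hG]
  have hm0 : (0 : ℤ) < m := by
    exact_mod_cast (Nat.zero_le m₀).trans_lt hm
  have key : ∀ q : ℤ, Subsingleton (CH T (m + N + r) (cub g) m q) ↔
      Subsingleton (T.H (q - 1) 0 X) := by
    intro q
    obtain ⟨e⟩ := hT _ T.toBorelMoore (q - 1) 0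
    have e1 : q - 1 + 1 + 2 * (N : ℤ) + 2 * r = 2 * (m + N + r) - 2 * m + q := by ring
    have e2 : 0 + (N : ℤ) + r = (m + N + r) - m := by ring
    rw [e1, e2] at e
    refine (subsingleton_iso e).trans (subsingleton_biprod _ _ (T.point _ _ fun h => ?_))
    have h1 : (0 : ℤ) - m = 0 := congrArg Prod.snd h
    omega
  constructor
  · intro h1 q hq
    rw [key q]
    have h2 := h1 (2 * d - (q - 1)) (by omega)
    rwa [show 2 * d - (2 * d - (q - 1)) = q - 1 by ring] at h2
  · intro h1 i hi
    have h2 := (key (2 * d - i + 1)).1 (h1 _ (by omega))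
    rwa [show 2 * d - i + 1 - 1 = 2 * d - i by ring] at h2

end Pool.Agent.Results.MP_b197b4_nt.CubicHigherChowH3
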