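import Pool.Agent.E8helper74.FC.Finite

/-!
# Étale motivic cohomology in the weight of the dimension, and cutting and pasting

Let `k` be a finite field. `FiniteTheory k K D` (`Pool.Agent.E8helper74.FC`) lists the properties which are used of
Voevodsky's category `D` of geometric motives with rational coefficients, of the motives with compact supports
`M^c(X)` of the separated schemes `X` of finite type over `k` (localization, `M^c(X × 𝔸^1) = M^c(X)(1)[2]`, finite
free coverings and finite quotients, no positive morphisms between the motives of smooth and proper schemes,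
generation by such motives), of a Weil cohomology `H`, of the finite-dimensional motives of Kimura and O'Sullivan
(`Kim`), and of the Frobenius endomorphisms.

`Cut c G` is the smallest class of schemes over `k` which

* contains the schemes with `G`, and the affine schemes given by systems of polynomials `f_1, ..., f_s` in any number
  of variables over finitely generated `k`-algebras `A` of dimension at most `c`, such that the exponents of the `f_l`
  are independent (`Split N f` for some `N > 0`);
* is closed under isomorphisms, under passing from two of `Z`, `X`, `X ∖ Z` to the third (`Z` closed in `X`), from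
  `Spec B` to `Spec A` if `B ⊇ A` is a finite free `A`-algebra, from `Spec B` to `Spec B^Γ` for a finite group `Γ`,
  and from `Spec A` to `Spec A[t]`.

For smooth and proper `X` of dimension `d`, `H^i(X, ℚ(d)) = Hom(ℚ, h(X)[i - 2 d])` (`Mot X d i`). We prove for all
smooth and proper `X` in `Cut c G` that `h(X)` is finite-dimensional, that `H^i(X, ℚ(d)) = 0` for `i < 2 d`, and that
`H^i(X_et, ℤ(d))` is finitely generated for all `i ≤ 2 d`, if the motives of the schemes with `G` and of the smooth
and proper schemes of dimension at most `c` are finite-dimensional. This is known for `c = 1` and the class `G` of all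
smooth and proper schemes with finite-dimensional motives (products of curves, abelian varieties, ...).
-/

set_option autoImplicit false

open CategoryTheory CategoryTheory.Limits AlgebraicGeometry Pool.Agent.Y116.UV
open Pool.Agent.E8helper74.FC

namespace Pool.Agent.Results.MP_b197b4_nt.CutAndPasteH74

universe v u

section

variable {k : Type} [Field k] {K : Type} [Field K] {D : Type u} [Category.{v} D] [Preadditive D]
  [HasZeroObject D] [HasShift D ℤ] [∀ n : ℤ, (shiftFunctor D n).Additive] [Pretriangulated D]
  (T : FiniteTheory k K D)

/-- `X` is smooth and proper and its motive is finite-dimensional. -/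
def Tame (X : Sch k) : Prop := SmoothProper X ∧ T.Kim (T.Mc X)

/-- Q1 for a scheme `X` of dimension `d`: the groups `G i = H^i(X_et, ℤ(d))` are finitely generated for `i ≤ 2 d`. -/
def HoldsFor (X : Sch k) (d : ℕ) : Prop :=
  ∀ (G : ℤ → Type) [∀ i, AddCommGroup (G i)], WeightDim (d : ℤ) G (fun i => T.Mot X d i) →
    ∀ i : ℤ, i ≤ 2 * (d : ℤ) → AddGroup.FG (G i)

/-- `h(X)` is finite-dimensional, and if the dimension of `X` is at most `d`, then `H^i(X, ℚ(d)) = 0` for `i < 2 d`
and Q1 holds. -/
def Conclusion (X : Sch k) : Prop :=
  Tame T X ∧ ∀ d : ℕ, DimLE d X → (∀ i : ℤ, i < 2 * (d : ℤ) → ∀ x : T.Mot X d i, x = 0) ∧ HoldsFor T X d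

end

theorem result (k : Type) [Field k] [Finite k] (K : Type) [Field K] (D : Type u) [Category.{v} D]
    [Preadditive D] [HasZeroObject D] [HasShift D ℤ] [∀ n : ℤ, (shiftFunctor D n).Additive]
    [Pretriangulated D] [IsTriangulated D] [Linear ℚ D] (T : FiniteTheory k K D) :
    (∀ (c : ℕ) (G : Sch k → Prop), (∀ Y, G Y → Tame T Y) →
      (∀ Y : Sch k, SmoothProper Y → DimLE c Y → Tame T Y) →
      ∀ X : Sch k, SmoothProper X → Cut c G X → Conclusion T X) ∧
    ∀ X : Sch k, SmoothProper X → Cut 1 (Tame T) X → Conclusion T X := by
  have h1 : ∀ (c : ℕ) (G : Sch k → Prop), (∀ Y, G Y → Tame T Y) →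
      (∀ Y : Sch k, SmoothProper Y → DimLE c Y → Tame T Y) →
      ∀ X : Sch k, SmoothProper X → Cut c G X → Conclusion T X := by
    intro c G hG hc X hX h
    obtain ⟨M, hM, hr⟩ := T.toMotiveTheory.decomposition (fun Y hY => (hG Y hY).1) hX h
    have hF : T.Kim (T.Mc X) := by
      refine T.kim_retract _ _ (T.kim_sums (fun Y hY => ?_) hM) hr
      rcases hY with hY | hY
      · exact T.kim_curveProd (fun Z hZ hZ' => (hc Z hZ hZ').2) hY
      · exact (hG Y hY).2
    refine ⟨⟨hX, hF⟩, fun d hd => ⟨fun i hi x => T.vanishing hX hF d hd _ (by omega) x, ?_⟩⟩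
    intro G' _ hG' i hi
    exact T.finitelyGenerated hX hF d hd G' hG' i hi
  exact ⟨h1, fun X hX h => h1 1 (Tame T) (fun _ h => h) (fun Y hY hY' => ⟨hY, T.kim_curve Y hY hY'⟩)
    X hX h⟩

end Pool.Agent.Results.MP_b197b4_nt.CutAndPasteH74
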