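import Mathlib
import Pool.Agent.E8helper65.WD.Main
import Pool.Agent.E8helper65.PG.Main
import Pool.Agent.E8helper65.PG.PnDefs

/-!
# Finite generation of étale motivic cohomology in the weight of the dimension for the smooth projective
# varieties generated by abelian varieties of dimension at most five, and by products of elliptic
# curves, abelian surfaces and threefolds

An abelian variety over the field with `p ^ a` elements is modelled by `RedAV` (Honda, Tate): a
finite product of CM types `(E i, Φ i)` with Weil numbers `π i ∈ E i` that satisfy the formula of
Shimura and Taniyama; its cohomology of degree `n`, with coefficients in an algebraically closed field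
`Ω`, consists of the alternating `n`-forms on the Tate module `Ω ⊗ H_1`, on which the Frobenius
endomorphism acts by `π`.

We consider (`IsGoodAVP`) the abelian varieties `Y` over finite fields of the following kinds:

* **all abelian varieties of dimension at most five**;
* the abelian varieties that are isogenous, over an algebraic closure, to a product of a supersingular
  abelian variety of any dimension and of abelian varieties of dimension at most three (any number, any
  multiplicity), such that any two factors of dimension three whose CM fields have the same Galois
  closure satisfy one of the following: their fields are Galois over `ℚ`; one of them is supersingular;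
  they are isogenous; neither of them is ordinary and their `p`-ranks are not `{1, 2}`. So `Y` may be
  **any product of elliptic curves and abelian surfaces**, of any dimension.

`Homology Ω V` are data of motivic homology `M X n j = H_n^M(X, ℚ(j)) = CH_j(X, n - 2 j) ⊗ ℚ` (higher
Chow groups) and of `ℓ`-adic homology `E X n j = H_n(X, ℚ_ℓ(j))` of schemes `X : V` of finite type over
finite fields, with the Frobenius and the regulator. Let `𝒢` (`GeneratedD`) be the smallest class of
schemes that contains those with the homology groups of the abelian varieties above, that is closed
under direct summands of finite sums of twists of motives, that contains all of a closed subscheme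
`Z` of `X`, `X` and `X ∖ Z` if it contains two of them, and that contains `X` if it contains the base
change of `X` to a finite extension of the ground field. For example, it contains all products of
curves of genus at most two, the twisted forms of such products, symmetric powers of them, and the
varieties dominated by an abelian variety of dimension at most five whose motive is a direct summand.

**Theorem.** For all connected smooth projective varieties `X` of any dimension `d` in `𝒢`, and all
`i ≤ 2 d`, the group `G i = H^i(X_et, ℤ(d))` is finitely generated: Q1 holds for `X`.

`IsWeightDim` is the known relation between the groups `G i` and the groups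
`H^i(X, ℚ(d)) = H_(2 d - i)^M(X, ℚ(0))`: for `i < 2 d` the kernel and the cokernel of
`H^i(X_et, ℤ(d)) → H^i(X, ℚ(d))` are finite, and `H^(2 d)(X_et, ℤ(d))` is finitely generated.
Properties of the theory of cycles that are used for the abelian varieties `Y` (`IsChowS`,
`IsMotivic`): Poincaré duality, the formal properties of correspondences, the nilpotence of
homologically trivial correspondences (Kimura), the operation of the Frobenius endomorphism on higher
Chow groups, the vanishing of the higher rational `K`-groups of a finite field (Quillen), and the
algebraicity of the classes in `AlgS` (theorems of Tate, Markman and Ramón Marí). That all Tate classes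
on `Y` are in `AlgS`, and that the conjecture of Tate for `Y` implies the conjecture of Tate and
Beilinson `TB`, which passes to direct summands and to open and closed subschemes, is in the starting
files (following Soulé, Geisser, Kahn and Jannsen).
-/

set_option autoImplicit false

namespace Pool.Agent.Results.MP_b197b4_nt.GeneratedSmallAbelianH65

open Pool.Agent.W495.TA Pool.Agent.W495.FM Pool.Agent.E8helper65.PG
  Pool.Agent.R937.PG
open Pool.Agent.E8helper65.WD (IsWeightDim FinitelyGenerated fg_iff)

/-- The groups `H^i(X_et, ℤ(d))`, `i ≤ 2 d`, are finitely generated for all connected smooth projective
varieties `X` of dimension `d` in the class generated by the abelian varieties `IsGoodAVP`. -/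
theorem result (p : ℕ) [Fact p.Prime] (ν : PadicAlgCl p ≃+* ℂ) (Ω : Type) [Field Ω]
    [IsAlgClosed Ω] [CharZero Ω] (V : Type) (T : Homology Ω V) (hT : IsHomology T) (X : V)
    (hX : GeneratedD T (IsGoodAbelianP p ν T) X) (hpure : IsPure T X) (d : ℕ)
    (G : ℤ → Type) [∀ i, AddCommGroup (G i)]
    (hG : IsWeightDim d G (fun i => T.M X (2 * d - i) 0)) : FinitelyGenerated d G := by
  rw [fg_iff hG]
  intro i hi
  have hTB := tb_goodD hT hX
  have h0 : ∀ x : T.M X (2 * d - i) 0, x = 0 := by
    intro x
    by_contra h0
    have h1 := (hTB (2 * d - i) 0).2.1 1 (fun _ => x) (linearIndependent_unique_iff.2 h0)
    have h2 := linearIndependent_unique_iff.1 h1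
    exact h2 (hpure _ _ (by omega) _ (hT.frob_reg X _ _ x))
  exact ⟨fun a b => by rw [h0 a, h0 b]⟩

end Pool.Agent.Results.MP_b197b4_nt.GeneratedSmallAbelianH65
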