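import Pool.Agent.E8helper1.TBW.Fin

/-!
# Finite generation of étale motivic cohomology in weight `dim` for all powers of a variety over a
# finite field, or at most one half of the Tate classes are algebraic

Let `X` be a smooth projective variety over a finite field `𝔽_q` with a motive which is
finite-dimensional in the sense of Kimura (for example an abelian variety, a product of curves, or a
variety which is dominated by a product of curves), or, more generally, such that homologically trivial
correspondences on the powers of `X` are nilpotent, or such that rational and homological equivalence
are equal on one power `X ^ (2 m)`, `m > b`. Here `b` is the dimension of the whole `ℓ`-adic cohomology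
of `X`. Let `d` be the dimension of `X`,

  `M = 2 b! ((2 d + 1) b!) ^ (b - 1)`,  `m ≥ b³ M² log (2 b M + 1)`,
  `C = (16 m b ^ (4 m + 2)) ^ (b² + 2)`.

**Theorem.** Either for all powers `Y = X ^ N`, for their dimensions `D = N d` and for their base changes
`Y_s` to all finite extensions `𝔽_(q^s)` of the ground field the groups `H^i((Y_s)_et, ℤ(D))`, `i ≤ 2 D`,
are finitely generated (Q1 for `Y_s`), and the conjectures of Tate, Beilinson (rational, homological and
numerical equivalence are equal) and Parshin (the higher Chow groups are torsion) are true for `Y`, or
**for all `n`** the rank of the group of the cycles on `X ^ (n + 1)` (over the algebraic closure)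
modulo numerical equivalence is at most

  `1 / 2 + C log (n + 2) / (n + 1)`

times the number of linearly independent Tate classes on `X ^ (n + 1)`.

So Q1 for all powers of `X` follows if on one power `X ^ (n + 1)` with `C log (n + 2) / (n + 1) < 1 / 100`
51 percent of the Tate classes are algebraic. Nothing is assumed on the semisimplicity of the
cohomology.

The setting: `k` is the algebraic closure of `𝔽_q`, `𝒱` a class of smooth proper varieties over `k` with
cycles and their operations, `W` the `ℓ`-adic cohomology with its cycle classes, `G` the operation of the
Weil group on the cohomology of the powers of `X` (generated by the Frobenius `γ`, `IsFinite`;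
`Frobenii`: integral, and Frobenius elements are dense), and `C` (`Chow`) consists of the higher Chow
groups with rational coefficients and the correspondences of degree zero on the powers `pw X n` of `X`
(`n + 1` factors), with their known properties `IsChow` (`IsTheory`, `IsExt`): the action of
correspondences commutes with the cycle maps, every element is defined over a finite field, so that a
power `F ^ s` of the Frobenius acts on it by `q ^ (s c)`, the correspondence `x × y` acts by the
projection formula (the higher rational `K`-groups of a finite field vanish, Quillen), and Kimura's
theorem (`kimura`; used only for the assumption on rational equivalence on one power). `IsWeightDim`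
relates the étale motivic cohomology in weight `D` to the groups `CH^D(Y, r) ⊗ ℚ`.

The proof: by the theorem `MP_0fca13_ag.FiftyOnePercentAnyFieldH24` (helper24), which rests on
`MP_0fca13_ag.OnePowerAnyFieldH1`, the second alternative or the Tate conjecture and the equality of
homological and numerical equivalence for all powers is true. In the latter case the argument of Soulé,
Geisser and Kahn, which is proved here from the properties of correspondences, applies: let `p` be the
sum of the products `x_a × y_a` of dual bases of the spaces of algebraic classes. On the complement of
the image of `p` a polynomial `R` in a power `F ^ s` of the Frobenius with `R (q ^ (s c)) ≠ 0` is zero on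
the cohomology, so `R (F ^ s) (1 - p)` is nilpotent, and every element of a higher Chow group is in the
image of `p`.
-/

open CategoryTheory AlgebraicGeometry

universe u

namespace Pool.Agent.Results.MP_b197b4_nt.HalfOrAllPowersH1

open Pool.Agent.H914 Pool.Agent.H914.VarClass
open Pool.Agent.Y129 (pw)
open Pool.Agent.E8helper1.TP (Gal hdim)
open Pool.Agent.E8helper1.TPQ (Frobenii exponent)
open Pool.Agent.E8helper1.TBU (Chow IsFinite IsChow TateBeilinson)
open Pool.Agent.E8helper1.TBW (IsWeightDim FinitelyGenerated)
open Pool.Agent.E8helper24.HP (AtMostHalf constant)
open Pool.Agent.Y133.Half (cycRank)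

variable {k : Type u} [Field k] {𝒱 : VarClass k} {ops : CycleOps 𝒱}
  {W : WeilCohomology.{u, 0} ops} {X : 𝒱.Obj}

/-- **Q1 for all powers of `X`, or at most half of the Tate classes are algebraic.** Here
`E n s i = H^i((Y_s)_et, ℤ(D))` for the product `Y = pw X n` of `n + 1` copies of `X`, of dimension `D`,
and its base change `Y_s` to `𝔽_(q^s)`; `cycRank ops (pw X n)` is the rank of the group of its cycles
modulo numerical equivalence and `G.tateDim n` the dimension of the space of its Tate classes. -/
theorem result {ℓ : ℕ} [Fact ℓ.Prime] (φ : W.K ≃+* ℚ_[ℓ]) (hX : 0 < hdim W X)
    (G : Gal W X) (hG : Frobenii G φ) (C : Chow W X) (q : ℕ) (γ : G.Γ) (hF : IsFinite G q γ)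
    (hC : IsChow G C q γ) (hK : C.Nilpotence ∨ ∃ m, hdim W X < m ∧ C.RatHom (2 * m - 1))
    (E : ℕ → ℕ → ℤ → Type) [∀ n s i, AddCommGroup (E n s i)]
    (hE : ∀ n, IsWeightDim (pw X n).dim (C.M n (pw X n).dim) (E n)) (m : ℕ)
    (hm : (hdim W X : ℝ) ^ 3 * (exponent (hdim W X) X.dim : ℝ) ^ 2 *
      Real.log (2 * hdim W X * exponent (hdim W X) X.dim + 1) ≤ m) :
    (∀ n, TateBeilinson G C n ∧ FinitelyGenerated (pw X n).dim (E n)) ∨
      AtMostHalf (fun n => cycRank ops (pw X n)) G.tateDim (constant (hdim W X) m) :=
  Pool.Agent.E8helper1.TBW.half φ hX hG hF hC hK hE hm

end Pool.Agent.Results.MP_b197b4_nt.HalfOrAllPowersH1
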